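import Mathlib

/-!
Group rings: if `R[G^n]` has no zero divisors for every `n`, then `D[G]` has no zero divisors
for every integral domain `D` whose characteristic is that of `R` or zero.
-/

namespace Pool.Agent.Results.MP_b3f03e_al.StablePowers

open Finset

/-- explicit zero divisor data in the group ring of `G` over `F` -/
def ZD (F G : Type*) [CommRing F] [Group G] : Prop :=
  ∃ (s t : Finset G) (a b : G → F), (∀ g, g ∉ s → a g = 0) ∧ (∀ g, g ∉ t → b g = 0) ∧
    (∃ g, a g ≠ 0) ∧ (∃ g, b g ≠ 0) ∧ ∀ g, ∑ h ∈ s, a h * b (h⁻¹ * g) = 0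

section basic
variable {F G : Type*} [CommRing F] [Group G]

lemma coeff_mul_of_subset (x y : MonoidAlgebra F G) (s : Finset G) (hs : x.coeff.support ⊆ s)
    (g : G) : (x * y).coeff g = ∑ h ∈ s, x.coeff h * y.coeff (h⁻¹ * g) := by
  rw [MonoidAlgebra.coeff_mul_apply_left, Finsupp.sum_of_support_subset _ hs]
  intro i _
  simp

lemma not_zd_iff : ¬ ZD F G ↔ NoZeroDivisors (MonoidAlgebra F G) := by
  constructor
  · intro h
    refine ⟨fun {x y} hxy => ?_⟩
    by_contra hne
    push Not at hne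
    apply h
    refine ⟨x.coeff.support, y.coeff.support, x.coeff, y.coeff, ?_, ?_, ?_, ?_, ?_⟩
    · intro g hg; simpa using hg
    · intro g hg; simpa using hg
    · by_contra h0
      push Not at h0
      exact hne.1 (by ext g; simpa using h0 g)
    · by_contra h0
      push Not at h0
      exact hne.2 (by ext g; simpa using h0 g)
    · intro g
      rw [← coeff_mul_of_subset x y _ subset_rfl, hxy]
      simp
  · rintro h ⟨s, t, a, b, ha, hb, ⟨g0, hg0⟩, ⟨g1, hg1⟩, hab⟩
    let x : MonoidAlgebra F G := .ofCoeff (Finsupp.onFinset s a fun g hg => by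
      by_contra hs; exact hg (ha g hs))
    let y : MonoidAlgebra F G := .ofCoeff (Finsupp.onFinset t b fun g hg => by
      by_contra hs; exact hg (hb g hs))
    have hxy : x * y = 0 := by
      ext g
      have hx : x.coeff.support ⊆ s := by
        intro g hg
        by_contra hs
        simp [x, ha g hs] at hg
      rw [coeff_mul_of_subset x y s hx]
      simpa [x, y] using hab g
    rcases mul_eq_zero.1 hxy with h0 | h0
    · apply hg0
      have := congrArg (fun z : MonoidAlgebra F G => z.coeff g0) h0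
      simpa [x] using this
    · apply hg1
      have := congrArg (fun z : MonoidAlgebra F G => z.coeff g1) h0
      simpa [y] using this

/-- transfer of zero divisor data along `K ← S → L` -/
lemma zd_transfer {S K L : Type*} [CommRing S] [CommRing K] [CommRing L] (ι : S →+* K)
    (hι : Function.Injective ι) (ψ : S →+* L) {s t : Finset G} {a b : G → K}
    (ha : ∀ g, g ∉ s → a g = 0) (hb : ∀ g, g ∉ t → b g = 0)
    (hab : ∀ g, ∑ h ∈ s, a h * b (h⁻¹ * g) = 0) (c d : K) (a' b' : G → S)
    (ha' : ∀ g, ι (a' g) = c * a g) (hb' : ∀ g, ι (b' g) = d * b g)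
    (h0 : ∃ g, ψ (a' g) ≠ 0) (h1 : ∃ g, ψ (b' g) ≠ 0) : ZD L G := by
  refine ⟨s, t, fun g => ψ (a' g), fun g => ψ (b' g), ?_, ?_, h0, h1, ?_⟩
  · intro g hg
    have : a' g = 0 := hι (by rw [ha', ha g hg]; simp)
    simp [this]
  · intro g hg
    have : b' g = 0 := hι (by rw [hb', hb g hg]; simp)
    simp [this]
  · intro g
    have : ∑ h ∈ s, a' h * b' (h⁻¹ * g) = 0 := by
      apply hι
      rw [map_sum, map_zero]
      simp only [map_mul, ha', hb']
      calc ∑ h ∈ s, c * a h * (d * b (h⁻¹ * g))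
          = c * d * ∑ h ∈ s, a h * b (h⁻¹ * g) := by
            rw [Finset.mul_sum]; exact Finset.sum_congr rfl fun h _ => by ring
        _ = 0 := by rw [hab, mul_zero]
    have h2 := congrArg ψ this
    simpa [map_sum] using h2

lemma zd_of_injective {S L : Type*} [CommRing S] [CommRing L] (ψ : S →+* L)
    (hψ : Function.Injective ψ) (h : ZD S G) : ZD L G := by
  obtain ⟨s, t, a, b, ha, hb, ⟨g0, hg0⟩, ⟨g1, hg1⟩, hab⟩ := h
  refine zd_transfer (RingHom.id S) Function.injective_id ψ ha hb hab 1 1 a b (by simp) (by simp)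
    ⟨g0, fun h => hg0 (hψ (by simpa using h))⟩ ⟨g1, fun h => hg1 (hψ (by simpa using h))⟩

omit [Group G] in
/-- clearing denominators -/
lemma exists_clear {R K : Type*} [CommRing R] [IsDomain R] [Field K] [Algebra R K]
    [IsFractionRing R K] (s : Finset G) (a : G → K) (ha : ∀ g, g ∉ s → a g = 0) :
    ∃ (c : K) (a' : G → R), c ≠ 0 ∧ ∀ g, algebraMap R K (a' g) = c * a g := by
  obtain ⟨c, hc⟩ := IsLocalization.exist_integer_multiples (nonZeroDivisors R) s a
  have : ∀ g, ∃ r : R, algebraMap R K r = algebraMap R K c * a g := by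
    intro g
    by_cases hg : g ∈ s
    · obtain ⟨r, hr⟩ := hc g hg
      exact ⟨r, by rw [hr, Algebra.smul_def]⟩
    · exact ⟨0, by simp [ha g hg]⟩
  choose a' ha' using this
  refine ⟨algebraMap R K c, a', ?_, ha'⟩
  exact (map_ne_zero_iff _ (IsFractionRing.injective R K)).2 (nonZeroDivisors.coe_ne_zero c)

lemma zd_of_fraction {R K : Type*} [CommRing R] [IsDomain R] [Field K] [Algebra R K]
    [IsFractionRing R K] (h : ZD K G) : ZD R G := by
  obtain ⟨s, t, a, b, ha, hb, ⟨g0, hg0⟩, ⟨g1, hg1⟩, hab⟩ := h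
  obtain ⟨c, a', hc, ha'⟩ := exists_clear (R := R) s a ha
  obtain ⟨d, b', hd, hb'⟩ := exists_clear (R := R) t b hb
  refine zd_transfer (algebraMap R K) (IsFractionRing.injective R K) (RingHom.id R) ha hb hab
    c d a' b' ha' hb' ⟨g0, fun h => ?_⟩ ⟨g1, fun h => ?_⟩
  · have h2 := ha' g0
    rw [show a' g0 = 0 from h, map_zero] at h2
    exact mul_ne_zero hc hg0 h2.symm
  · have h2 := hb' g1
    rw [show b' g1 = 0 from h, map_zero] at h2
    exact mul_ne_zero hd hg1 h2.symm

end basic

section galois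
variable {G : Type*} [Group G]

/-- The key step: zero divisors over a finite Galois extension `K / k` give zero divisors
over `k` for the power of `G` indexed by the Galois group. -/
lemma zd_pi_of_galois {k K : Type*} [Field k] [Field K] [Algebra k K] [FiniteDimensional k K]
    [IsGalois k K] (h : ZD K G) : ZD k ((K ≃ₐ[k] K) → G) := by
  classical
  obtain ⟨s, t, a, b, ha, hb, ⟨g0, hg0⟩, ⟨g1, hg1⟩, hab⟩ := h
  have htr : ∃ x : K, Algebra.trace k K x ≠ 0 := by
    by_contra h0
    push Not at h0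
    exact Algebra.trace_ne_zero k K (LinearMap.ext h0)
  obtain ⟨x, hx⟩ := htr
  have hA : (∏ σ : K ≃ₐ[k] K, σ (a g0)) ≠ 0 :=
    Finset.prod_ne_zero_iff.2 fun σ _ => by simpa using hg0
  have hB : (∏ _σ : K ≃ₐ[k] K, b g1) ≠ 0 := Finset.prod_ne_zero_iff.2 fun σ _ => hg1
  set lam : K := x / ∏ σ : K ≃ₐ[k] K, σ (a g0) with hlam
  set mu : K := x / ∏ _σ : K ≃ₐ[k] K, b g1 with hmu
  refine ⟨Fintype.piFinset fun _ => s, Fintype.piFinset fun _ => t,
    fun h => Algebra.trace k K (lam * ∏ σ : K ≃ₐ[k] K, σ (a (h σ))),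
    fun h => Algebra.trace k K (mu * ∏ σ : K ≃ₐ[k] K, b (h σ)), ?_, ?_,
    ⟨fun _ => g0, ?_⟩, ⟨fun _ => g1, ?_⟩, ?_⟩
  · intro h hh
    rw [Fintype.mem_piFinset] at hh
    push Not at hh
    obtain ⟨σ, hσ⟩ := hh
    beta_reduce
    rw [Finset.prod_eq_zero (Finset.mem_univ σ) (by simp [ha _ hσ])]
    simp
  · intro h hh
    rw [Fintype.mem_piFinset] at hh
    push Not at hh
    obtain ⟨σ, hσ⟩ := hh
    beta_reduce
    rw [Finset.prod_eq_zero (Finset.mem_univ σ) (by simp [hb _ hσ])]
    simp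
  · simp only [hlam]
    rwa [div_mul_cancel₀ _ hA]
  · simp only [hmu]
    rwa [div_mul_cancel₀ _ hB]
  · intro g
    have key : ∑ h ∈ Fintype.piFinset fun _ : K ≃ₐ[k] K => s,
        algebraMap k K (Algebra.trace k K (lam * ∏ σ : K ≃ₐ[k] K, σ (a (h σ)))) *
          ∏ σ : K ≃ₐ[k] K, b ((h σ)⁻¹ * g σ) = 0 := by
      simp only [trace_eq_sum_automorphisms, Finset.sum_mul]
      rw [Finset.sum_comm]
      refine Finset.sum_eq_zero fun τ _ => ?_
      have h1 : ∀ h : (K ≃ₐ[k] K) → G,
          τ (lam * ∏ σ : K ≃ₐ[k] K, σ (a (h σ))) * ∏ σ : K ≃ₐ[k] K, b ((h σ)⁻¹ * g σ) =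
            τ lam * ∏ σ : K ≃ₐ[k] K, (τ (σ (a (h σ))) * b ((h σ)⁻¹ * g σ)) := by
        intro h
        rw [map_mul, map_prod, Finset.prod_mul_distrib, mul_assoc]
      simp only [h1]
      rw [← Finset.mul_sum,
        ← Finset.prod_univ_sum (fun _ : K ≃ₐ[k] K => s)
          (fun σ j => τ (σ (a j)) * b (j⁻¹ * g σ)),
        Finset.prod_eq_zero (Finset.mem_univ τ.symm), mul_zero]
      simpa using hab (g τ.symm)
    calc ∑ h ∈ Fintype.piFinset fun _ : K ≃ₐ[k] K => s,
          Algebra.trace k K (lam * ∏ σ : K ≃ₐ[k] K, σ (a (h σ))) *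
            Algebra.trace k K (mu * ∏ σ : K ≃ₐ[k] K, b ((h⁻¹ * g) σ))
        = Algebra.trace k K (mu * ∑ h ∈ Fintype.piFinset fun _ : K ≃ₐ[k] K => s,
            algebraMap k K (Algebra.trace k K (lam * ∏ σ : K ≃ₐ[k] K, σ (a (h σ)))) *
              ∏ σ : K ≃ₐ[k] K, b ((h σ)⁻¹ * g σ)) := by
          rw [Finset.mul_sum, map_sum]
          refine Finset.sum_congr rfl fun h _ => ?_
          rw [← smul_eq_mul, ← map_smul, Algebra.smul_def]
          congr 1
          simp only [Pi.mul_apply, Pi.inv_apply]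
          ring
      _ = 0 := by rw [key]; simp

lemma zd_congr {F H : Type*} [CommRing F] [Group H] (e : G ≃* H) (h : ZD F G) : ZD F H := by
  by_contra h0
  rw [not_zd_iff] at h0
  refine not_zd_iff.2 ?_ h
  exact (MonoidAlgebra.mapDomainRingEquiv F e).injective.noZeroDivisors _ (map_zero _)
    (map_mul _)

lemma zd_fin_of_galois {k K : Type*} [Field k] [Field K] [Algebra k K] [FiniteDimensional k K]
    [IsGalois k K] (h : ZD K G) : ∃ n, ZD k (Fin n → G) :=
  ⟨_, zd_congr (MulEquiv.arrowCongr (Fintype.equivFin (K ≃ₐ[k] K)) (MulEquiv.refl G))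
    (zd_pi_of_galois h)⟩

/-- finite extensions of a perfect field -/
lemma zd_fin_of_finite {k K : Type*} [Field k] [PerfectField k] [Field K] [Algebra k K]
    [FiniteDimensional k K] (h : ZD K G) : ∃ n, ZD k (Fin n → G) := by
  let L := IntermediateField.normalClosure k K (AlgebraicClosure K)
  have : IsGalois k L := {}
  exact zd_fin_of_galois (k := k) (K := L)
    (zd_of_injective (algebraMap K L) (algebraMap K L).injective h)

/-- arbitrary extensions of a perfect field -/
lemma zd_fin_of_ext {k K : Type*} [Field k] [PerfectField k] [Field K] [Algebra k K]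
    (h : ZD K G) : ∃ n, ZD k (Fin n → G) := by
  classical
  obtain ⟨s, t, a, b, ha, hb, ⟨g0, hg0⟩, ⟨g1, hg1⟩, hab⟩ := h
  let u : Finset K := s.image (fun g => (a g0)⁻¹ * a g) ∪ t.image (fun g => (b g1)⁻¹ * b g)
  let S : Subalgebra k K := Algebra.adjoin k (u : Set K)
  have hS : Algebra.FiniteType k S :=
    (Subalgebra.fg_iff_finiteType S).1 (Subalgebra.fg_adjoin_finset u)
  have haS : ∀ g, (a g0)⁻¹ * a g ∈ S := by
    intro g
    by_cases hg : g ∈ s
    · exact Algebra.subset_adjoin (by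
        simp only [u, Finset.coe_union, Finset.coe_image]
        exact Or.inl ⟨g, hg, rfl⟩)
    · simp [ha g hg]
  have hbS : ∀ g, (b g1)⁻¹ * b g ∈ S := by
    intro g
    by_cases hg : g ∈ t
    · exact Algebra.subset_adjoin (by
        simp only [u, Finset.coe_union, Finset.coe_image]
        exact Or.inr ⟨g, hg, rfl⟩)
    · simp [hb g hg]
  obtain ⟨m, hm⟩ := Ideal.exists_maximal S
  let _ : Field (S ⧸ m) := Ideal.Quotient.field m
  have : Module.Finite k (S ⧸ m) := finite_of_finite_type_of_isJacobsonRing k (S ⧸ m)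
  refine zd_fin_of_finite (k := k) (K := S ⧸ m) ?_
  refine zd_transfer (S.val : S →+* K) Subtype.val_injective (Ideal.Quotient.mk m) ha hb hab
    (a g0)⁻¹ (b g1)⁻¹ (fun g => ⟨_, haS g⟩) (fun g => ⟨_, hbS g⟩) (fun _ => rfl) (fun _ => rfl)
    ⟨g0, ?_⟩ ⟨g1, ?_⟩
  · have : (⟨(a g0)⁻¹ * a g0, haS g0⟩ : S) = 1 := Subtype.ext (inv_mul_cancel₀ hg0)
    rw [this, map_one]
    exact one_ne_zero
  · have : (⟨(b g1)⁻¹ * b g1, hbS g1⟩ : S) = 1 := Subtype.ext (inv_mul_cancel₀ hg1)
    rw [this, map_one]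
    exact one_ne_zero

end galois

section reduction
variable {G : Type*} [Group G]

omit [Group G] in
lemma exists_normalise {K : Type*} [Field K] (V : ValuationSubring K) (s : Finset G) (a : G → K)
    (ha : ∀ g, g ∉ s → a g = 0) (h0 : ∃ g, a g ≠ 0) :
    ∃ g0, a g0 ≠ 0 ∧ ∀ g, (a g0)⁻¹ * a g ∈ V := by
  obtain ⟨g1, hg1⟩ := h0
  have hs : s.Nonempty := ⟨g1, by by_contra h; exact hg1 (ha g1 h)⟩
  obtain ⟨g0, hg0s, hmax⟩ := s.exists_max_image (fun g => V.valuation (a g)) hs
  have hne : V.valuation (a g0) ≠ 0 := by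
    intro h
    have h1 := hmax g1 (by by_contra h; exact hg1 (ha g1 h))
    rw [h, le_zero_iff] at h1
    exact hg1 ((Valuation.zero_iff _).1 h1)
  refine ⟨g0, fun h => hne (by simp [h]), fun g => ?_⟩
  by_cases hg : g ∈ s
  · rw [← ValuationSubring.valuation_le_one_iff, map_mul, map_inv₀,
      inv_mul_le_one₀ (zero_lt_iff.2 hne)]
    exact hmax g hg
  · simp [ha g hg]

/-- zero divisors in characteristic zero give zero divisors over a field of characteristic `p` -/
lemma zd_reduce {K : Type*} [Field K] [CharZero K] (p : ℕ) [hp : Fact p.Prime] (h : ZD K G) :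
    ∃ n, ZD (ZMod p) (Fin n → G) := by
  obtain ⟨s, t, a, b, ha, hb, h0, h1, hab⟩ := h
  let A : Subring K := (Int.castRingHom K).range
  let I : Ideal A := Ideal.span {(p : A)}
  have hI : I ≠ ⊤ := by
    intro hI
    rw [Ideal.span_singleton_eq_top, isUnit_iff_exists_inv] at hI
    obtain ⟨⟨y, z, rfl⟩, hy⟩ := hI
    have h2 : ((p : ℤ) : K) * (z : K) = ((1 : ℤ) : K) := by
      have := congrArg (Subtype.val : A → K) hy
      simpa using this
    rw [← Int.cast_mul, Int.cast_inj] at h2
    have h3 : (p : ℤ) ∣ 1 := ⟨z, h2.symm⟩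
    have h4 : p ∣ 1 := by exact_mod_cast h3
    exact hp.out.one_lt.ne' (Nat.dvd_one.1 h4)
  obtain ⟨V, -, hV⟩ := Ideal.image_subset_nonunits_valuationSubring I hI
  have hpV : (p : K) ∈ V.nonunits := hV ⟨(p : A), Ideal.subset_span rfl, by simp⟩
  have hp0 : ((p : ℕ) : IsLocalRing.ResidueField V) = 0 := by
    rw [← map_natCast (IsLocalRing.residue V), IsLocalRing.residue_eq_zero_iff,
      ← ValuationSubring.coe_mem_nonunits_iff]
    simpa using hpV
  have : CharP (IsLocalRing.ResidueField V) p := (CharP.charP_iff_prime_eq_zero hp.out).2 hp0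
  let _ : Algebra (ZMod p) (IsLocalRing.ResidueField V) := ZMod.algebra _ p
  refine zd_fin_of_ext (k := ZMod p) (K := IsLocalRing.ResidueField V) ?_
  obtain ⟨g0, hg0, haV⟩ := exists_normalise V s a ha h0
  obtain ⟨g1, hg1, hbV⟩ := exists_normalise V t b hb h1
  refine zd_transfer (V.subtype : V →+* K) Subtype.val_injective (IsLocalRing.residue V) ha hb hab
    (a g0)⁻¹ (b g1)⁻¹ (fun g => ⟨_, haV g⟩) (fun g => ⟨_, hbV g⟩) (fun _ => rfl) (fun _ => rfl)
    ⟨g0, ?_⟩ ⟨g1, ?_⟩
  · have : (⟨(a g0)⁻¹ * a g0, haV g0⟩ : V) = 1 := Subtype.ext (inv_mul_cancel₀ hg0)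
    rw [this, map_one]
    exact one_ne_zero
  · have : (⟨(b g1)⁻¹ * b g1, hbV g1⟩ : V) = 1 := Subtype.ext (inv_mul_cancel₀ hg1)
    rw [this, map_one]
    exact one_ne_zero

end reduction

universe u v w

theorem result (R : Type u) (D : Type v) [CommRing R] [IsDomain R] [CommRing D] [IsDomain D]
    (G : Type w) [Group G]
    (hR : ∀ n : ℕ, NoZeroDivisors (MonoidAlgebra R (Fin n → G)))
    (hchar : ringChar D = ringChar R ∨ ringChar D = 0) :
    NoZeroDivisors (MonoidAlgebra D G) := by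
  rw [← not_zd_iff]
  intro hD
  let K := FractionRing D
  have hK : ZD K G := zd_of_injective (algebraMap D K) (IsFractionRing.injective D K) hD
  have hcK : CharP K (ringChar D) := IsFractionRing.charP_of_isFractionRing D _
  rcases CharP.char_is_prime_or_zero R (ringChar R) with hp | h0
  · have : Fact (ringChar R).Prime := ⟨hp⟩
    have hn : ∃ n, ZD (ZMod (ringChar R)) (Fin n → G) := by
      rcases hchar with h | h
      · rw [h] at hcK
        let _ : Algebra (ZMod (ringChar R)) K := ZMod.algebra _ _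
        exact zd_fin_of_ext (k := ZMod (ringChar R)) hK
      · rw [h] at hcK
        have : CharZero K := CharP.charP_to_charZero K
        exact zd_reduce (ringChar R) hK
    obtain ⟨n, hn⟩ := hn
    exact not_zd_iff.2 (hR n) (zd_of_injective (ZMod.castHom dvd_rfl R)
      (ZMod.castHom dvd_rfl R).injective hn)
  · have hD0 : ringChar D = 0 := by
      rcases hchar with h | h
      · rw [h, h0]
      · exact h
    rw [hD0] at hcK
    have : CharZero K := CharP.charP_to_charZero K
    have hcR : CharP R 0 := h0 ▸ ringChar.charP R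
    have : CharZero R := CharP.charP_to_charZero R
    obtain ⟨n, hn⟩ := zd_fin_of_ext (k := ℚ) hK
    exact not_zd_iff.2 (hR n) (zd_of_injective (Int.castRingHom R) Int.cast_injective
      (zd_of_fraction (R := ℤ) hn))

end Pool.Agent.Results.MP_b3f03e_al.StablePowers
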